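import Mathlib
import Pool.Agent.H18R2.BZD.Defs
import Pool.Agent.H18R2.BZD.F
import Pool.Agent.H18R2.BZD.G

set_option autoImplicit false

open Pool.Agent.H18R2.BZD Pool.Agent.H18R2.BZD.Q2

namespace Pool.Agent.Results.MP_bcc032_al.PIUnbounded

/-- `R` is a PI algebra over `k`: it satisfies a nonzero polynomial identity with coefficients in
`k`. -/
def IsPI (k : Type) [Field k] (R : Type) [Ring R] [Algebra k R] : Prop :=
  ∃ m : ℕ, ∃ f : FreeAlgebra k (Fin m), f ≠ 0 ∧ ∀ a : Fin m → R, FreeAlgebra.lift k a f = 0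

/-- the five relators `yx - xy - 1`, `vy - ω yv`, `ω (y-1)vx - x(y-1)v`, `z(y-ω²) - 1`,
`(y-ω²)z - 1` -/
noncomputable def rel (k : Type) [Field k] (ω : k) : Fin 5 → FreeAlgebra k (Fin 4) :=
  let x := FreeAlgebra.ι k (0 : Fin 4)
  let y := FreeAlgebra.ι k (1 : Fin 4)
  let z := FreeAlgebra.ι k (2 : Fin 4)
  let v := FreeAlgebra.ι k (3 : Fin 4)
  ![y * x - (x * y + 1), v * y - ω • (y * v), ω • ((y - 1) * v * x) - x * ((y - 1) * v),
    z * (y - algebraMap k _ (ω ^ 2)) - 1, (y - algebraMap k _ (ω ^ 2)) * z - 1]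

theorem word_mem_degLT (k : Type) [Field k] {d n : ℕ} (l : List (Fin d)) (h : l.length < n) :
    (l.map (FreeAlgebra.ι k)).prod ∈ degLT k d n := Submodule.subset_span ⟨l, h, rfl⟩

theorem degLT_mono (k : Type) [Field k] {d n n' : ℕ} (h : n ≤ n') : degLT k d n ≤ degLT k d n' :=
  Submodule.span_mono (fun _ ⟨l, hl, hw⟩ => ⟨l, hl.trans_le h, hw⟩)

theorem rel_deg (k : Type) [Field k] (ω : k) (i : Fin 5) : rel k ω i ∈ degLT k 4 4 := by
  have w := fun l hl => word_mem_degLT k (n := 4) (d := 4) l hl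
  have h0 := w [] (by simp)
  fin_cases i
  · have h1 := w [1, 0] (by simp)
    have h2 := w [0, 1] (by simp)
    simpa [rel] using sub_mem h1 (add_mem h2 h0)
  · have h1 := w [3, 1] (by simp)
    have h2 := w [1, 3] (by simp)
    simpa [rel] using sub_mem h1 (Submodule.smul_mem _ ω h2)
  · have h1 := w [1, 3, 0] (by simp)
    have h2 := w [3, 0] (by simp)
    have h3 := w [0, 1, 3] (by simp)
    have h4 := w [0, 3] (by simp)
    have := sub_mem (Submodule.smul_mem _ ω (sub_mem h1 h2)) (sub_mem h3 h4)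
    simpa [rel, mul_sub, sub_mul, mul_assoc, smul_sub] using this
  · have h1 := w [2, 1] (by simp)
    have h2 := w [2] (by simp)
    have := sub_mem (sub_mem h1 (Submodule.smul_mem _ (ω ^ 2) h2)) h0
    have e : (FreeAlgebra.ι k (2 : Fin 4)) * algebraMap k (FreeAlgebra k (Fin 4)) (ω ^ 2)
        = ω ^ 2 • FreeAlgebra.ι k (2 : Fin 4) := by
      rw [← Algebra.commutes, ← Algebra.smul_def]
    show FreeAlgebra.ι k (2 : Fin 4) * (FreeAlgebra.ι k 1 - algebraMap k _ (ω ^ 2)) - 1 ∈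
      degLT k 4 4
    rw [mul_sub, e]
    simpa using this
  · have h1 := w [1, 2] (by simp)
    have h2 := w [2] (by simp)
    have := sub_mem (sub_mem h1 (Submodule.smul_mem _ (ω ^ 2) h2)) h0
    have e : algebraMap k (FreeAlgebra k (Fin 4)) (ω ^ 2) * (FreeAlgebra.ι k (2 : Fin 4))
        = ω ^ 2 • FreeAlgebra.ι k (2 : Fin 4) := by
      rw [← Algebra.smul_def]
    show (FreeAlgebra.ι k (1 : Fin 4) - algebraMap k _ (ω ^ 2)) * FreeAlgebra.ι k 2 - 1 ∈
      degLT k 4 4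
    rw [sub_mul, e]
    simpa using this

theorem proj_rel {k : Type} [Field k] {d s : ℕ} (r : Fin s → FreeAlgebra k (Fin d)) (i : Fin s) :
    proj r (r i) = 0 := by
  have := RingQuot.mkAlgHom_rel k (s := fun a b : FreeAlgebra k (Fin d) => ∃ i, a = r i ∧ b = 0)
    (x := r i) (y := 0) ⟨i, rfl, rfl⟩
  rw [map_zero] at this
  exact this

/-- lifting to representations -/
noncomputable def lft {k : Type} [Field k] {d s : ℕ} (r : Fin s → FreeAlgebra k (Fin d))
    {A : Type} [Ring A] [Algebra k A] (f : Fin d → A)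
    (h : ∀ i, FreeAlgebra.lift k f (r i) = 0) : Quo r →ₐ[k] A :=
  RingQuot.liftAlgHom k ⟨FreeAlgebra.lift k f, by
    rintro a b ⟨i, rfl, rfl⟩; rw [h, map_zero]⟩

theorem lft_proj {k : Type} [Field k] {d s : ℕ} (r : Fin s → FreeAlgebra k (Fin d))
    {A : Type} [Ring A] [Algebra k A] (f : Fin d → A)
    (h : ∀ i, FreeAlgebra.lift k f (r i) = 0) (a : FreeAlgebra k (Fin d)) :
    lft r f h (proj r a) = FreeAlgebra.lift k f a := by
  simp [lft, proj]

/-- every realisation of the relations gives a representation -/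
theorem exists_rep {k : Type} [Field k] {ω : k} {A : Type} [Ring A] [Algebra k A] {x y z v : A}
    (h : Rel ω x y z v) : ∃ ρ : Quo (rel k ω) →ₐ[k] A,
      ρ (proj (rel k ω) (FreeAlgebra.ι k 0)) = x ∧ ρ (proj (rel k ω) (FreeAlgebra.ι k 1)) = y ∧
      ρ (proj (rel k ω) (FreeAlgebra.ι k 2)) = z ∧ ρ (proj (rel k ω) (FreeAlgebra.ι k 3)) = v := by
  refine ⟨lft (rel k ω) ![x, y, z, v] ?_, ?_, ?_, ?_, ?_⟩
  · intro i
    fin_cases i
    · simp only [rel]
      simp [h.h1]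
    · simp only [rel]
      simp [h.h2]
    · simp only [rel]
      simp [h.h3]
    · have := h.h4
      simp only [rel]
      simp at this
      simp [this]
    · have := h.h5
      simp only [rel]
      simp at this
      simp [this]
  all_goals simp [lft_proj]

theorem relQ {k : Type} [Field k] {ω : k} (hω : ω ^ 2 + ω + 1 = 0) :
    Rel ω (proj (rel k ω) (FreeAlgebra.ι k 0)) (proj (rel k ω) (FreeAlgebra.ι k 1))
      (proj (rel k ω) (FreeAlgebra.ι k 2)) (proj (rel k ω) (FreeAlgebra.ι k 3)) := by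
  have h0 : proj (rel k ω) (FreeAlgebra.ι k 1 * FreeAlgebra.ι k 0
    - (FreeAlgebra.ι k 0 * FreeAlgebra.ι k 1 + 1)) = 0 := proj_rel (rel k ω) 0
  have h1 : proj (rel k ω) (FreeAlgebra.ι k 3 * FreeAlgebra.ι k 1
    - ω • (FreeAlgebra.ι k 1 * FreeAlgebra.ι k 3)) = 0 := proj_rel (rel k ω) 1
  have h2 : proj (rel k ω) (ω • ((FreeAlgebra.ι k 1 - 1) * FreeAlgebra.ι k 3 * FreeAlgebra.ι k 0)
    - FreeAlgebra.ι k 0 * ((FreeAlgebra.ι k 1 - 1) * FreeAlgebra.ι k 3)) = 0 :=
    proj_rel (rel k ω) 2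
  have h3 : proj (rel k ω) (FreeAlgebra.ι k 2 * (FreeAlgebra.ι k 1 - algebraMap k _ (ω ^ 2)) - 1)
    = 0 := proj_rel (rel k ω) 3
  have h4 : proj (rel k ω) ((FreeAlgebra.ι k 1 - algebraMap k _ (ω ^ 2)) * FreeAlgebra.ι k 2 - 1)
    = 0 := proj_rel (rel k ω) 4
  simp only [map_sub, map_mul, map_add, map_one, map_smul, AlgHom.commutes] at h0 h1 h2 h3 h4
  exact ⟨hω, sub_eq_zero.mp h0, sub_eq_zero.mp h1, sub_eq_zero.mp h2, sub_eq_zero.mp h3,
    sub_eq_zero.mp h4⟩

theorem proj_word {k : Type} [Field k] {ω : k} (l : List (Fin 4)) :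
    proj (rel k ω) ((l.map (FreeAlgebra.ι k)).prod)
      = (l.map ![proj (rel k ω) (FreeAlgebra.ι k 0), proj (rel k ω) (FreeAlgebra.ι k 1),
          proj (rel k ω) (FreeAlgebra.ι k 2), proj (rel k ω) (FreeAlgebra.ι k 3)]).prod := by
  rw [map_list_prod, List.map_map]
  congr 2
  funext i
  fin_cases i <;> rfl

theorem span_words (k : Type) [Field k] (d : ℕ) :
    Submodule.span k {w : FreeAlgebra k (Fin d) | ∃ l : List (Fin d),
      w = (l.map (FreeAlgebra.ι k)).prod} = ⊤ := by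
  rw [eq_top_iff]
  have h1 : (⊤ : Submodule k (FreeAlgebra k (Fin d)))
      = Subalgebra.toSubmodule (Algebra.adjoin k (Set.range (FreeAlgebra.ι k))) := by
    rw [FreeAlgebra.adjoin_range_ι]; rfl
  rw [h1, Algebra.adjoin_eq_span]
  apply Submodule.span_mono
  intro w hw
  induction hw using Submonoid.closure_induction with
  | mem w hw => obtain ⟨i, rfl⟩ := hw; exact ⟨[i], by simp⟩
  | one => exact ⟨[], by simp⟩
  | mul a b _ _ ha hb =>
    obtain ⟨l, rfl⟩ := ha
    obtain ⟨l', rfl⟩ := hb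
    exact ⟨l ++ l', by simp⟩

theorem hspan {k : Type} [Field k] {ω : k} :
    Submodule.span k {w : Quo (rel k ω) | ∃ l : List (Fin 4),
      w = (l.map ![proj (rel k ω) (FreeAlgebra.ι k 0), proj (rel k ω) (FreeAlgebra.ι k 1),
          proj (rel k ω) (FreeAlgebra.ι k 2), proj (rel k ω) (FreeAlgebra.ι k 3)]).prod} = ⊤ := by
  rw [eq_top_iff]
  intro r _
  obtain ⟨f, rfl⟩ := RingQuot.mkAlgHom_surjective k
    (fun a b : FreeAlgebra k (Fin 4) => ∃ i, a = rel k ω i ∧ b = 0) r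
  have hf : f ∈ Submodule.span k {w : FreeAlgebra k (Fin 4) | ∃ l : List (Fin 4),
      w = (l.map (FreeAlgebra.ι k)).prod} := by rw [span_words]; trivial
  show proj (rel k ω) f ∈ _
  induction hf using Submodule.span_induction with
  | mem w hw =>
    obtain ⟨l, rfl⟩ := hw
    rw [proj_word]
    exact Submodule.subset_span ⟨l, rfl⟩
  | zero => rw [map_zero]; exact zero_mem _
  | add a b _ _ ha hb => rw [map_add]; exact add_mem (ha trivial) (hb trivial)
  | smul c a _ ha => rw [map_smul]; exact Submodule.smul_mem _ _ (ha trivial)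

theorem exists_omega (p : ℕ) [Fact p.Prime] (h : p % 3 = 1) : ∃ ω : ZMod p, ω ^ 2 + ω + 1 = 0 := by
  have hcard : 3 ∣ Fintype.card (ZMod p)ˣ := by
    rw [ZMod.card_units]
    have := (Fact.out : p.Prime).two_le
    omega
  have : Fact (Nat.Prime 3) := ⟨by norm_num⟩
  obtain ⟨g, hg⟩ := exists_prime_orderOf_dvd_card 3 hcard
  refine ⟨(g : ZMod p), ?_⟩
  have h1 : (g : ZMod p) ^ 3 = 1 := by
    rw [← Units.val_pow_eq_pow_val, ← hg, pow_orderOf_eq_one, Units.val_one]
  have h2 : (g : ZMod p) ≠ 1 := by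
    intro h0
    have : g = 1 := Units.ext h0
    rw [this, orderOf_one] at hg
    norm_num at hg
  have h3 : ((g : ZMod p) - 1) * ((g : ZMod p) ^ 2 + g + 1) = 0 := by
    have : ((g : ZMod p) - 1) * ((g : ZMod p) ^ 2 + g + 1) = (g : ZMod p) ^ 3 - 1 := by ring
    rw [this, h1, sub_self]
  exact (mul_eq_zero.mp h3).resolve_left (sub_ne_zero.mpr h2)

/-- The main construction over `F_p`, `p ≡ 1 mod 3`: a non-domain PI algebra with 4 generators and
5 relators of degree at most 3, without pairs of zero-divisors of degree less than `p`. -/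
theorem main (p : ℕ) [Fact p.Prime] (h : p % 3 = 1) :
    ∃ r : Fin 5 → FreeAlgebra (ZMod p) (Fin 4), (∀ i, r i ∈ degLT (ZMod p) 4 4) ∧
      IsPI (ZMod p) (Quo r) ∧ (∃ a b : Quo r, a ≠ 0 ∧ b ≠ 0 ∧ a * b = 0) ∧
      ∀ a b : Quo r, HasDegLT r p a → HasDegLT r p b → a ≠ 0 → b ≠ 0 → a * b ≠ 0 := by
  obtain ⟨ω, hω⟩ := exists_omega p h
  have hp : ((p : ℕ) : ZMod p) = 0 := by simp
  have hp0 : 0 < p := (Fact.out : p.Prime).pos
  have hR := relQ hω
  obtain ⟨ρ, hx, hy, hz, hv⟩ := exists_rep (relE (ZMod p) ω hω)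
  refine ⟨rel (ZMod p) ω, rel_deg _ _, ?_, ?_, ?_⟩
  · exact isPI ρ hx hy hz hv hR p hp hp0 hspan
  · have h3 : (3 : ZMod p) ≠ 0 := by
      intro h3
      have h4 : ((3 : ℕ) : ZMod p) = 0 := by exact_mod_cast h3
      rw [ZMod.natCast_eq_zero_iff] at h4
      have := (Nat.prime_dvd_prime_iff_eq (Fact.out : p.Prime) (by norm_num)).mp h4
      omega
    obtain ⟨z, hz'⟩ := exists_z (ZMod p) ω p hp hp0 h3 hω
    obtain ⟨τ, tx, ty, tz, tv⟩ := exists_rep hz'
    have htv : ∀ j, τ (vj ω (proj (rel (ZMod p) ω) (FreeAlgebra.ι _ 0))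
        (proj (rel (ZMod p) ω) (FreeAlgebra.ι _ 3)) j)
        = vj ω (xV (ZMod p) ω) (vV (ZMod p)) j := by
      intro j
      induction j with
      | zero => exact tv
      | succ j ih => rw [vj, vj, map_sub, map_smul, map_mul, map_mul, ih, tx]
    refine ⟨proj (rel (ZMod p) ω) (FreeAlgebra.ι _ 1) - 1,
      vj ω (proj (rel (ZMod p) ω) (FreeAlgebra.ι _ 0)) (proj (rel (ZMod p) ω) (FreeAlgebra.ι _ 3)) p,
      ?_, ?_, ?_⟩
    · intro h0
      have := congrArg τ h0
      rw [map_sub, map_one, map_zero, ty] at this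
      exact y_sub_one_ne (ZMod p) ω this
    · intro h0
      have := congrArg τ h0
      rw [htv, map_zero] at this
      exact vj_ne (ZMod p) ω hω p this
    · obtain ⟨m, hm⟩ : ∃ m, p = m + 1 := ⟨p - 1, by omega⟩
      have h4 := y1_vj hR m
      rw [← hm] at h4
      rw [h4, hp, zero_smul, neg_zero]
  · have he : (((p - 1).factorial : ℕ) : ZMod p) ≠ 0 := by
      rw [Ne, ZMod.natCast_eq_zero_iff, (Fact.out : p.Prime).dvd_factorial]
      omega
    have hlow : ∀ a : Quo (rel (ZMod p) ω), HasDegLT (rel (ZMod p) ω) p a →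
        a ∈ ⨆ n, Sp ω (proj (rel (ZMod p) ω) (FreeAlgebra.ι _ 0))
          (proj (rel (ZMod p) ω) (FreeAlgebra.ι _ 1)) (proj (rel (ZMod p) ω) (FreeAlgebra.ι _ 2))
          (proj (rel (ZMod p) ω) (FreeAlgebra.ι _ 3)) n (p - 1) := by
      rintro a ⟨f, hf, rfl⟩
      have h5 : degLT (ZMod p) 4 p ≤ (⨆ n, Sp ω (proj (rel (ZMod p) ω) (FreeAlgebra.ι _ 0))
          (proj (rel (ZMod p) ω) (FreeAlgebra.ι _ 1)) (proj (rel (ZMod p) ω) (FreeAlgebra.ι _ 2))
          (proj (rel (ZMod p) ω) (FreeAlgebra.ι _ 3)) n (p - 1)).comap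
          (proj (rel (ZMod p) ω)).toLinearMap := by
        apply Submodule.span_le.mpr
        rintro w ⟨l, hl, rfl⟩
        rw [SetLike.mem_coe, Submodule.mem_comap, AlgHom.toLinearMap_apply, proj_word]
        exact word_Sp hR (p - 1) he l (by omega)
      exact h5 hf
    intro a b ha hb ha0 hb0
    exact low_prod ρ hx hy hz hv hR (p - 1) he (hlow a ha) (hlow b hb) ha0 hb0

/-- PI algebras with 4 generators and 5 relators of degree at most 3 do not have bounded
zero-divisors: for every `N` there are a prime field `k` and such a PI algebra over `k` that is not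
a domain and in which no two nonzero elements of degree less than `N` have product zero. -/
theorem result (N : ℕ) :
    ∃ (p : ℕ) (_ : Fact p.Prime) (r : Fin 5 → FreeAlgebra (ZMod p) (Fin 4)),
      (∀ i, r i ∈ degLT (ZMod p) 4 4) ∧ IsPI (ZMod p) (Quo r) ∧
      (∃ a b : Quo r, a ≠ 0 ∧ b ≠ 0 ∧ a * b = 0) ∧
      ∀ a b : Quo r, HasDegLT r N a → HasDegLT r N b → a ≠ 0 → b ≠ 0 → a * b ≠ 0 := by
  obtain ⟨p, hp, hN, h3⟩ := Nat.exists_prime_gt_modEq_one N (show (3 : ℕ) ≠ 0 by norm_num)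
  have : Fact p.Prime := ⟨hp⟩
  obtain ⟨r, h1, h2, h4, h5⟩ := main p (by simpa [Nat.ModEq] using h3)
  refine ⟨p, ⟨hp⟩, r, h1, h2, h4, ?_⟩
  intro a b ha hb
  apply h5 a b
  · obtain ⟨f, hf, rfl⟩ := ha
    exact ⟨f, degLT_mono _ hN.le hf, rfl⟩
  · obtain ⟨f, hf, rfl⟩ := hb
    exact ⟨f, degLT_mono _ hN.le hf, rfl⟩

end Pool.Agent.Results.MP_bcc032_al.PIUnbounded
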