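import Mathlib
import Pool.Agent.H18R2.BZD.Defs
import Pool.Agent.H18R2.BZD.Q1b

set_option autoImplicit false

open Pool.Agent.H18R2.BZD Pool.Agent.H18R2.BZD.Q1

namespace Pool.Agent.Results.MP_bcc032_al.UnboundedZeroDivisors

/-- the three relators `yx - xy - 1`, `yv - vy`, `y(xv - vx) + m v` -/
noncomputable def rel (k : Type) [Field k] (m : ℕ) : Fin 3 → FreeAlgebra k (Fin 3) :=
  let x := FreeAlgebra.ι k (0 : Fin 3)
  let y := FreeAlgebra.ι k (1 : Fin 3)
  let v := FreeAlgebra.ι k (2 : Fin 3)
  ![y * x - x * y - 1, y * v - v * y, y * (x * v - v * x) + (m : k) • v]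

theorem degLT_mono (k : Type) [Field k] {d n n' : ℕ} (h : n ≤ n') : degLT k d n ≤ degLT k d n' :=
  Submodule.span_mono (fun _ ⟨l, hl, hw⟩ => ⟨l, hl.trans_le h, hw⟩)

theorem word_mem_degLT (k : Type) [Field k] {d n : ℕ} (l : List (Fin d)) (h : l.length < n) :
    (l.map (FreeAlgebra.ι k)).prod ∈ degLT k d n := Submodule.subset_span ⟨l, h, rfl⟩

theorem rel_deg (k : Type) [Field k] (m : ℕ) (i : Fin 3) : rel k m i ∈ degLT k 3 4 := by
  fin_cases i
  · have h1 := word_mem_degLT k (n := 4) [(1 : Fin 3), 0] (by simp)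
    have h2 := word_mem_degLT k (n := 4) [(0 : Fin 3), 1] (by simp)
    have h3 := word_mem_degLT k (n := 4) (d := 3) [] (by simp)
    simpa [rel] using sub_mem (sub_mem h1 h2) h3
  · have h1 := word_mem_degLT k (n := 4) [(1 : Fin 3), 2] (by simp)
    have h2 := word_mem_degLT k (n := 4) [(2 : Fin 3), 1] (by simp)
    simpa [rel] using sub_mem h1 h2
  · have h1 := word_mem_degLT k (n := 4) [(1 : Fin 3), 0, 2] (by simp)
    have h2 := word_mem_degLT k (n := 4) [(1 : Fin 3), 2, 0] (by simp)
    have h3 := word_mem_degLT k (n := 4) [(2 : Fin 3)] (by simp)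
    simpa [rel, mul_sub] using add_mem (sub_mem h1 h2) (Submodule.smul_mem _ (m : k) h3)

theorem proj_rel {k : Type} [Field k] {d s : ℕ} (r : Fin s → FreeAlgebra k (Fin d)) (i : Fin s) :
    proj r (r i) = 0 := by
  have := RingQuot.mkAlgHom_rel k (s := fun a b : FreeAlgebra k (Fin d) => ∃ i, a = r i ∧ b = 0)
    (x := r i) (y := 0) ⟨i, rfl, rfl⟩
  rw [map_zero] at this
  exact this

/-- lifting to representations -/
noncomputable def lft {k : Type} [Field k] {d s : ℕ} (r : Fin s → FreeAlgebra k (Fin d))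
    {A : Type} [Ring A] [Algebra k A] (f : Fin d → A)
    (h : ∀ i, FreeAlgebra.lift k f (r i) = 0) : Quo r →ₐ[k] A :=
  RingQuot.liftAlgHom k ⟨FreeAlgebra.lift k f, by
    rintro a b ⟨i, rfl, rfl⟩; rw [h, map_zero]⟩

theorem lft_proj {k : Type} [Field k] {d s : ℕ} (r : Fin s → FreeAlgebra k (Fin d))
    {A : Type} [Ring A] [Algebra k A] (f : Fin d → A)
    (h : ∀ i, FreeAlgebra.lift k f (r i) = 0) (a : FreeAlgebra k (Fin d)) :
    lft r f h (proj r a) = FreeAlgebra.lift k f a := by
  simp [lft, proj]

/-- For every field `k` of characteristic zero and every `N` there is an algebra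
`R = k⟨x₁,x₂,x₃⟩/(r₁,r₂,r₃)` with all `deg rᵢ ≤ 3` that is not a domain, although no two nonzero
elements of `R` of degree less than `N` have product zero. -/
theorem result (k : Type) [Field k] [CharZero k] (N : ℕ) :
    ∃ r : Fin 3 → FreeAlgebra k (Fin 3), (∀ i, r i ∈ degLT k 3 4) ∧
      (∃ a b : Quo r, a ≠ 0 ∧ b ≠ 0 ∧ a * b = 0) ∧
      ∀ p q : Quo r, HasDegLT r N p → HasDegLT r N q → p ≠ 0 → q ≠ 0 → p * q ≠ 0 := by
  obtain ⟨m, hm1, hmN⟩ : ∃ m, 1 ≤ m ∧ N ≤ m := ⟨N + 1, by omega, by omega⟩
  have hm : ((m.factorial : ℕ) : k) ≠ 0 := Nat.cast_ne_zero.mpr m.factorial_ne_zero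
  refine ⟨rel k m, rel_deg k m, ?_, ?_⟩
  all_goals
    set r := rel k m with hr
    set x := proj r (FreeAlgebra.ι k (0 : Fin 3)) with hx
    set y := proj r (FreeAlgebra.ι k (1 : Fin 3)) with hy
    set v := proj r (FreeAlgebra.ι k (2 : Fin 3)) with hv
    have h1 : y * x = x * y + 1 := by
      have := proj_rel r 0
      simp only [hr, rel, Matrix.cons_val_zero, map_sub, map_mul, map_one] at this
      rw [sub_sub, sub_eq_zero] at this
      exact this
    have h2 : y * v = v * y := by
      have := proj_rel r 1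
      simp only [hr, rel, Matrix.cons_val_one, Matrix.cons_val_zero, map_sub, map_mul] at this
      rw [sub_eq_zero] at this
      exact this
    have h3 : y * (x * v - v * x) = -((m : k) • v) := by
      have := proj_rel r 2
      simp only [hr, rel, Matrix.cons_val, map_sub, map_mul, map_add, map_smul] at this
      rw [← sub_neg_eq_add, sub_eq_zero] at this
      exact this
  · -- the action on functions on the integers shows that the commutator is nonzero
    let ρ : Quo r →ₐ[k] Module.End k (ℤ → k) := lft r ![x2 k, y2 k, v2 k m] (by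
      intro i
      fin_cases i
      · simp [hr, rel, rel1']
      · simp [hr, rel, rel2' k m hm1]
      · simp only [hr, rel]
        simp [rel3' k m hm1])
    have hρx : ρ x = x2 k := by simp [ρ, hx, lft_proj]
    have hρy : ρ y = y2 k := by simp [ρ, hy, lft_proj]
    have hρv : ρ v = v2 k m := by simp [ρ, hv, lft_proj]
    have hww : ∀ j, ρ (ww x v j) = ww (x2 k) (v2 k m) j := by
      intro j
      induction j with
      | zero => simpa [ww] using hρv
      | succ j ih => simp only [ww, map_sub, map_mul, ih, hρx]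
    refine ⟨y, ww x v (m + 1), ?_, ?_, ?_⟩
    · intro h
      have h4 := rel1' k
      rw [← hρy, h, map_zero, zero_mul, mul_zero, zero_add] at h4
      have h5 := congrArg (fun T : Module.End k (ℤ → k) => T (fun _ => 1) 0) h4
      simp at h5
    · intro h
      obtain ⟨s, hs, h4⟩ := ww2_ne k m hm1 (m + 1)
      rw [← hww, h, map_zero, LinearMap.zero_apply] at h4
      have h5 := congrFun h4 0
      simp only [Pi.zero_apply, Pi.single_eq_same] at h5
      exact hs h5.symm
    · rw [ww_succ m x y v h1 h3, sub_self, zero_smul]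
  · let ρ : Quo r →ₐ[k] Module.End k (Polynomial (PP k)) := lft r ![x1 k, y1 k, v1 k m] (by
      intro i
      fin_cases i
      · simp [hr, rel, rel1]
      · simp [hr, rel, rel2 k m]
      · simp only [hr, rel]
        simp [rel3 k m])
    have hρx : ρ x = x1 k := by simp [ρ, hx, lft_proj]
    have hρy : ρ y = y1 k := by simp [ρ, hy, lft_proj]
    have hρv : ρ v = v1 k m := by simp [ρ, hv, lft_proj]
    have hfun : (fun i => proj r (FreeAlgebra.ι k i)) = ![x, y, v] := by
      funext i; fin_cases i <;> rfl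
    have hlow : ∀ p : Quo r, HasDegLT r N p → p ∈ SS k m x y v m := by
      rintro p ⟨f, hf, rfl⟩
      have : degLT k 3 N ≤ (SS k m x y v m).comap (proj r).toLinearMap := by
        apply Submodule.span_le.mpr
        rintro w ⟨l, hl, rfl⟩
        have h4 := word_mem hm h1 h2 h3 l (by omega)
        have h5 : proj r ((l.map (FreeAlgebra.ι k)).prod) = (l.map ![x, y, v]).prod := by
          rw [map_list_prod, List.map_map]
          congr 2
        rw [SetLike.mem_coe, Submodule.mem_comap, AlgHom.toLinearMap_apply, h5]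
        exact SS_mono (by omega) h4
      exact this hf
    intro p q hp hq hp0 hq0 hpq
    have key := fun r' hr' hr0 f hf =>
      low_inj k m hm h1 h2 h3 ρ hρx hρy hρv m le_rfl r' hr' hr0 f hf
    have h6 := key q (hlow q hq) hq0 1 one_ne_zero
    have h7 := key p (hlow p hp) hp0 _ h6
    apply h7
    rw [← Module.End.mul_apply, ← map_mul, hpq, map_zero, LinearMap.zero_apply]

end Pool.Agent.Results.MP_bcc032_al.UnboundedZeroDivisors
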